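import Mathlib

set_option autoImplicit false

namespace Pool.Agent.H.MP_8cec24_co

@[ext] structure Q where
  a : ℤ
  b : ℤ
  d : ℤ → Bool
  hd : ∀ j, j < a - b → d j = false

instance : PartialOrder Q where
  le x y := x.a ≤ y.a ∧ x.b ≤ y.b ∧ ∀ j, y.a - x.b ≤ j → x.d j = y.d j
  le_refl x := ⟨le_rfl, le_rfl, fun _ _ => rfl⟩
  le_trans x y z h k := ⟨h.1.trans k.1, h.2.1.trans k.2.1, fun j hj =>
    (h.2.2 j (by have := k.1; omega)).trans (k.2.2 j (by have := h.2.1; omega))⟩
  le_antisymm x y h k := by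
    have ha : x.a = y.a := le_antisymm h.1 k.1
    have hb : x.b = y.b := le_antisymm h.2.1 k.2.1
    refine Q.ext ha hb (funext fun j => ?_)
    by_cases hj : j < x.a - x.b
    · rw [x.hd j hj, y.hd j (by omega)]
    · exact h.2.2 j (by omega)

lemma Q.le_def (x y : Q) :
    x ≤ y ↔ x.a ≤ y.a ∧ x.b ≤ y.b ∧ ∀ j, y.a - x.b ≤ j → x.d j = y.d j := Iff.rfl

def ht (q : Q) : ℤ := q.a + q.b

def up (q : Q) : Q := ⟨q.a + 1, q.b, fun j => if j < q.a + 1 - q.b then false else q.d j,
  fun j h => if_pos h⟩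

def dn (c : Bool) (q : Q) : Q := ⟨q.a, q.b + 1, fun j => if j = q.a - q.b - 1 then c else q.d j,
  fun j h => by rw [if_neg (by omega)]; exact q.hd j (by omega)⟩

def lift (q : Q) : Q := ⟨q.a + 1, q.b + 1, q.d, fun j h => q.hd j (by omega)⟩

def dig (q : Q) : Bool := q.d (q.a - q.b)

@[simp] lemma ht_up (q : Q) : ht (up q) = ht q + 1 := by simp [ht, up]; ring
@[simp] lemma ht_dn (c : Bool) (q : Q) : ht (dn c q) = ht q + 1 := by simp [ht, dn]; ring
@[simp] lemma ht_lift (q : Q) : ht (lift q) = ht q + 2 := by simp [ht, lift]; ring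

lemma ht_mono {x y : Q} (h : x ≤ y) : ht x ≤ ht y := add_le_add h.1 h.2.1

lemma eq_of_ht {x y : Q} (h : x ≤ y) (e : ht y ≤ ht x) : x = y := by
  have h1 := h.1; have h2 := h.2.1
  unfold ht at e
  refine le_antisymm h ⟨by omega, by omega, fun j hj => (h.2.2 j (by omega)).symm⟩

lemma le_up (q : Q) : q ≤ up q := ⟨by simp [up], le_rfl, fun j hj => by
  simp only [up] at hj ⊢; rw [if_neg (by omega)]⟩

lemma le_dn (c : Bool) (q : Q) : q ≤ dn c q := ⟨le_rfl, by simp [dn], fun j hj => by
  simp only [dn] at hj ⊢; rw [if_neg (by omega)]⟩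

lemma dn_up (q : Q) : dn (dig q) (up q) = lift q := by
  refine Q.ext rfl rfl (funext fun j => ?_)
  show (if j = q.a + 1 - q.b - 1 then q.d (q.a - q.b) else
    if j < q.a + 1 - q.b then false else q.d j) = q.d j
  by_cases h1 : j = q.a + 1 - q.b - 1
  · rw [if_pos h1]; congr 1; omega
  · rw [if_neg h1]
    by_cases h2 : j < q.a + 1 - q.b
    · rw [if_pos h2]; exact (q.hd j (by omega)).symm
    · rw [if_neg h2]

lemma up_dn (c : Bool) (q : Q) : up (dn c q) = lift q := by
  refine Q.ext rfl rfl (funext fun j => ?_)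
  show (if j < q.a + 1 - (q.b + 1) then false else
    if j = q.a - q.b - 1 then c else q.d j) = q.d j
  by_cases h1 : j < q.a + 1 - (q.b + 1)
  · rw [if_pos h1]; exact (q.hd j (by omega)).symm
  · rw [if_neg h1, if_neg (by omega)]

lemma up_le_lift (q : Q) : up q ≤ lift q := dn_up q ▸ le_dn _ _
lemma dn_le_lift (c : Bool) (q : Q) : dn c q ≤ lift q := up_dn c q ▸ le_up _

lemma join_up_dn {c : Bool} {q z : Q} (h : up q ≤ z) (k : dn c q ≤ z) : lift q ≤ z := by
  refine ⟨h.1, k.2.1, fun j hj => ?_⟩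
  have h1 := h.1
  have := k.2.2 j hj
  simp only [dn, lift, up] at *
  rwa [if_neg (by omega)] at this

lemma join_dn_dn {c c' : Bool} {q z : Q} (hc : c ≠ c') (h : dn c q ≤ z) (k : dn c' q ≤ z) :
    lift q ≤ z := by
  have h1 := h.1
  have h3 : q.a + 1 ≤ z.a := by
    by_contra hn
    have e1 := h.2.2 (q.a - q.b - 1) (by simp only [dn] at *; omega)
    have e2 := k.2.2 (q.a - q.b - 1) (by simp only [dn] at *; omega)
    simp only [dn, if_true] at e1 e2
    exact hc (e1.trans e2.symm)
  refine ⟨h3, k.2.1, fun j hj => ?_⟩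
  have := k.2.2 j hj
  simp only [dn, lift] at *
  rwa [if_neg (by omega)] at this

lemma cov_le {q r : Q} (h : q ≤ r) (hne : q ≠ r) : up q ≤ r ∨ ∃ c, dn c q ≤ r := by
  have h1 := h.1; have h2 := h.2.1
  by_cases ha : q.a < r.a
  · left
    refine ⟨ha, h2, fun j hj => ?_⟩
    simp only [up] at *
    rw [if_neg (by omega)]
    exact h.2.2 j hj
  · right
    have hb : q.b < r.b := by
      by_contra hb
      exact hne (eq_of_ht h (by unfold ht; omega))
    refine ⟨r.d (q.a - q.b - 1), h1, hb, fun j hj => ?_⟩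
    simp only [dn] at *
    split_ifs with e
    · rw [e]
    · exact h.2.2 j (by omega)

/-- joins of two elements with a common lower bound. -/
lemma join_aux {e x y : Q} (hx : e ≤ x) (hy : e ≤ y) (hb : y.b ≤ x.b) :
    ∃ m : Q, ∀ z, m ≤ z ↔ x ≤ z ∧ y ≤ z := by
  classical
  obtain ⟨A, ⟨h1, h2, h3⟩, hA⟩ := Int.exists_least_of_bdd
    (P := fun A => x.a ≤ A ∧ y.a ≤ A ∧ ∀ j, A - y.b ≤ j → x.d j = y.d j)
    ⟨x.a, fun z hz => hz.1⟩
    ⟨max x.a y.a + y.b - e.b, by have := hy.2.1; omega, by have := hy.2.1; omega, fun j hj =>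
      (hx.2.2 j (by omega)).symm.trans (hy.2.2 j (by omega))⟩
  refine ⟨⟨A, x.b, fun j => if j < A - x.b then false else x.d j, fun j h => if_pos h⟩, fun z => ?_⟩
  constructor
  · rintro ⟨k1, k2, k3⟩
    simp only at k1 k2 k3
    have k4 : ∀ j, z.a - x.b ≤ j → x.d j = z.d j := fun j hj => by
      have := k3 j hj
      rwa [if_neg (by omega)] at this
    exact ⟨⟨by omega, k2, k4⟩, by omega, by omega, fun j hj =>
      (h3 j (by omega)).symm.trans (k4 j (by omega))⟩
  · rintro ⟨kx, ky⟩
    have := hA z.a ⟨kx.1, ky.1, fun j hj => (kx.2.2 j (by omega)).trans (ky.2.2 j hj).symm⟩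
    refine ⟨this, kx.2.1, fun j hj => ?_⟩
    simp only at hj ⊢
    rw [if_neg (by omega)]
    exact kx.2.2 j hj

lemma join_Q {e x y : Q} (hx : e ≤ x) (hy : e ≤ y) : ∃ m : Q, ∀ z, m ≤ z ↔ x ≤ z ∧ y ≤ z := by
  rcases le_total y.b x.b with h | h
  · exact join_aux hx hy h
  · obtain ⟨m, hm⟩ := join_aux hy hx h
    exact ⟨m, fun z => (hm z).trans and_comm⟩

abbrev St := Q × Option Bool

def back : St → Q
  | (q, some c) => dn c q
  | (q, none) => up q

def init (q : Q) : St := (up q, some (dig q))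

def step (s : St) (t : Fin 3) : St :=
  if t = 1 then init s.1 else
    match s.2 with
    | some c => if t = 0 then init s.1 else (dn (!c) s.1, none)
    | none => (dn (decide (t = 2)) s.1, none)

lemma back_init (q : Q) : back (init q) = lift q := dn_up q

lemma step_cases (s : St) (t : Fin 3) : step s t = init s.1 ∨ ∃ c, step s t = (dn c s.1, none) := by
  unfold step
  split_ifs
  · exact Or.inl rfl
  · exact match s with
      | (q, some c) => Or.inl rfl
      | (q, none) => Or.inr ⟨_, rfl⟩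
  · exact match s with
      | (q, some c) => Or.inr ⟨_, rfl⟩
      | (q, none) => Or.inr ⟨_, rfl⟩

lemma back_step (s : St) (t : Fin 3) : back (step s t) = lift s.1 := by
  rcases step_cases s t with h | ⟨c, h⟩ <;> rw [h]
  · exact back_init _
  · exact up_dn _ _

lemma le_step (s : St) (t : Fin 3) : s.1 ≤ (step s t).1 := by
  rcases step_cases s t with h | ⟨c, h⟩ <;> rw [h]
  · exact le_up _
  · exact le_dn _ _

lemma ht_step (s : St) (t : Fin 3) : ht (step s t).1 = ht s.1 + 1 := by
  rcases step_cases s t with h | ⟨c, h⟩ <;> rw [h] <;> simp [init]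

lemma le_back (s : St) : s.1 ≤ back s :=
  match s with
  | (_, some _) => le_dn _ _
  | (_, none) => le_up _

lemma back_le (s : St) : back s ≤ lift s.1 :=
  match s with
  | (_, some _) => dn_le_lift _ _
  | (_, none) => up_le_lift _

lemma ht_back (s : St) : ht (back s) = ht s.1 + 1 :=
  match s with
  | (_, some _) => ht_dn _ _
  | (_, none) => ht_up _

lemma join_step_back {s : St} {t : Fin 3} {z : Q} (ht1 : t ≠ 1) (h : (step s t).1 ≤ z)
    (k : back s ≤ z) : lift s.1 ≤ z := by
  obtain ⟨q, _ | c⟩ := s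
  · simp only [step, if_neg ht1] at h
    exact join_up_dn k h
  · simp only [step, if_neg ht1] at h
    split_ifs at h
    · exact join_up_dn h k
    · exact join_dn_dn (by cases c <;> simp) h k

lemma join_step_step {s : St} {z : Q} (h : (step s 0).1 ≤ z) (k : (step s 2).1 ≤ z) :
    lift s.1 ≤ z := by
  obtain ⟨q, _ | c⟩ := s
  · exact join_dn_dn (c := false) (c' := true) (by simp) h k
  · exact join_up_dn h k

lemma exists_step {s : St} {r : Q} (h : s.1 ≤ r) (hne : s.1 ≠ r) (hb : ¬ back s ≤ r) :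
    ∃ t, t ≠ 1 ∧ (step s t).1 ≤ r := by
  obtain ⟨q, _ | c⟩ := s
  · rcases cov_le h hne with k | ⟨c, k⟩
    · exact absurd k hb
    · cases c
      · exact ⟨0, by decide, k⟩
      · exact ⟨2, by decide, k⟩
  · rcases cov_le h hne with k | ⟨c', k⟩
    · exact ⟨0, by decide, k⟩
    · refine ⟨2, by decide, ?_⟩
      have : c' = !c := by
        by_contra hc
        apply hb
        have : c' = c := by cases c <;> cases c' <;> simp_all
        exact this ▸ k
      rw [this] at k
      exact k

lemma ht_foldl (w : List (Fin 3)) (s : St) : ht (w.foldl step s).1 = ht s.1 + w.length := by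
  induction w generalizing s with
  | nil => simp
  | cons t w ih => simp [ih, ht_step]; ring

lemma le_foldl (w : List (Fin 3)) (s : St) : s.1 ≤ (w.foldl step s).1 := by
  induction w generalizing s with
  | nil => exact le_rfl
  | cons t w ih => exact (le_step s t).trans (ih _)

lemma back_foldl (w : List (Fin 3)) (s : St) : back s ≤ back (w.foldl step s) := by
  induction w generalizing s with
  | nil => exact le_rfl
  | cons t w ih => exact ((back_le s).trans (back_step s t).ge).trans (ih _)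

end Pool.Agent.H.MP_8cec24_co
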