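import Pool.Agent.H.MP_8cec24_co.A

set_option autoImplicit false

namespace Pool.Agent.H.MP_8cec24_co

@[ext] structure L where
  q : Q
  o : Option (List (Fin 3))

def st (q : Q) (w : List (Fin 3)) : St := w.foldl step (init q)

def bk : L → Q
  | ⟨q, none⟩ => q
  | ⟨q, some w⟩ => back (st q w)

def pre : Option (List (Fin 3)) → Option (List (Fin 3)) → Prop
  | none, _ => True
  | some _, none => False
  | some u, some w => u <+: w

def len : Option (List (Fin 3)) → ℕ
  | none => 0
  | some w => w.length + 1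

def rk (x : L) : ℤ := ht x.q + len x.o

def lle (x y : L) : Prop := (x.q = y.q ∧ pre x.o y.o) ∨ bk x ≤ y.q

lemma ht_st (q : Q) (w : List (Fin 3)) : ht (st q w).1 = ht q + w.length + 1 := by
  simp [st, ht_foldl, init]; ring

lemma le_st (q : Q) (w : List (Fin 3)) : q ≤ (st q w).1 := (le_up q).trans (le_foldl w (init q))

lemma le_bk (x : L) : x.q ≤ bk x :=
  match x with
  | ⟨_, none⟩ => le_rfl
  | ⟨q, some w⟩ => (le_st q w).trans (le_back _)

lemma ht_bk (q : Q) (w : List (Fin 3)) : ht (bk ⟨q, some w⟩) = ht q + w.length + 2 := by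
  simp [bk, ht_back, ht_st]; ring

lemma not_bk_le (q : Q) (w : List (Fin 3)) : ¬ bk ⟨q, some w⟩ ≤ q := fun h => by
  have := ht_mono h
  rw [ht_bk] at this
  omega

lemma rk_le_bk (x : L) : rk x ≤ ht (bk x) :=
  match x with
  | ⟨_, none⟩ => by simp [rk, bk, len]
  | ⟨q, some w⟩ => by rw [ht_bk]; simp [rk, len]; omega

lemma pre_refl (o : Option (List (Fin 3))) : pre o o := by
  cases o
  · trivial
  · exact List.prefix_rfl

lemma pre_trans {a b c : Option (List (Fin 3))} (h : pre a b) (k : pre b c) : pre a c := by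
  rcases a with _ | a
  · trivial
  rcases b with _ | b
  · exact h.elim
  rcases c with _ | c
  · exact k.elim
  exact List.IsPrefix.trans h k

lemma len_pre {a b : Option (List (Fin 3))} (h : pre a b) : len a ≤ len b ∧ (len b ≤ len a → a = b) := by
  rcases a with _ | a <;> rcases b with _ | b
  · simp
  · simp [len]
  · exact h.elim
  · have h' : a <+: b := h
    refine ⟨by simp [len, h'.length_le], fun k => ?_⟩
    simp only [len] at k
    rw [h'.eq_of_length_le (by omega)]

lemma bk_pre {q : Q} {a b : Option (List (Fin 3))} (h : pre a b) : bk ⟨q, a⟩ ≤ bk ⟨q, b⟩ := by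
  rcases a with _ | a
  · exact le_bk ⟨q, b⟩
  rcases b with _ | b
  · exact h.elim
  obtain ⟨v, rfl⟩ : a <+: b := h
  simp only [bk, st, List.foldl_append]
  exact back_foldl _ _

lemma q_le {x y : L} (h : lle x y) : x.q ≤ y.q := by
  rcases h with h | h
  · exact h.1.le
  · exact (le_bk x).trans h

lemma bk_mono {x y : L} (h : lle x y) : bk x ≤ bk y := by
  rcases h with ⟨h1, h2⟩ | h
  · obtain ⟨q, a⟩ := x; obtain ⟨r, b⟩ := y
    cases h1
    exact bk_pre h2
  · exact h.trans (le_bk y)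

lemma rk_mono {x y : L} (h : lle x y) : rk x ≤ rk y ∧ (rk y ≤ rk x → x = y) := by
  rcases h with ⟨h1, h2⟩ | h
  · have := len_pre h2
    unfold rk
    refine ⟨by rw [h1]; omega, fun k => L.ext h1 (this.2 (by rw [h1] at k; omega))⟩
  · have h1 := rk_le_bk x
    have h2 := ht_mono h
    refine ⟨by unfold rk at *; omega, fun k => ?_⟩
    obtain ⟨q, _ | a⟩ := x
    · obtain ⟨r, b⟩ := y
      simp only [rk, len, bk] at *
      have e : q = r := eq_of_ht h (by omega)
      subst e
      rcases b with _ | b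
      · rfl
      · simp at k; omega
    · rw [ht_bk] at h2
      simp only [rk, len] at k
      omega

instance : PartialOrder L where
  le := lle
  le_refl x := Or.inl ⟨rfl, pre_refl _⟩
  le_trans x y z h k := by
    rcases h with h | h
    · rcases k with k | k
      · exact Or.inl ⟨h.1.trans k.1, pre_trans h.2 k.2⟩
      · exact Or.inr ((bk_mono (Or.inl h)).trans k)
    · exact Or.inr (h.trans (q_le k))
  le_antisymm x y h k := (rk_mono h).2 (rk_mono k).1

lemma L.le_def (x y : L) : x ≤ y ↔ (x.q = y.q ∧ pre x.o y.o) ∨ bk x ≤ y.q := Iff.rfl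

lemma pure_le (q : Q) (y : L) : (⟨q, none⟩ : L) ≤ y ↔ q ≤ y.q :=
  ⟨fun h => q_le h, fun h => Or.inr h⟩

lemma rk_lt {x y : L} (h : x < y) : rk x < rk y := by
  by_contra k
  exact h.ne ((rk_mono h.le).2 (by omega))

/-- the four upper covers. -/
def cv : L → Fin 4 → L
  | ⟨q, none⟩, i => if i = 0 then ⟨up q, none⟩ else if i = 1 then ⟨q, some []⟩ else
      ⟨dn (decide (i = 3)) q, none⟩
  | ⟨q, some u⟩, i => if i = 3 then ⟨back (st q u), none⟩ else
      ⟨q, some (u ++ [if i = 0 then 0 else if i = 1 then 1 else 2])⟩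

def sh : L → Q
  | ⟨q, none⟩ => q
  | ⟨q, some w⟩ => (st q w).1

def Dl (x : L) : L := ⟨lift (sh x), none⟩

lemma rk_cv (x : L) (i : Fin 4) : rk (cv x i) = rk x + 1 := by
  obtain ⟨q, _ | u⟩ := x
  · simp only [cv]
    split_ifs <;> simp [rk, len]
  · simp only [cv]
    split_ifs <;> simp [rk, len, ht_back, ht_st] <;> ring

lemma le_cv (x : L) (i : Fin 4) : x ≤ cv x i := by
  obtain ⟨q, _ | u⟩ := x
  · simp only [cv, pure_le]
    split_ifs
    · exact le_up _
    · exact le_rfl
    · exact le_dn _ _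
  · simp only [cv]
    by_cases h : i = 3
    · rw [if_pos h]; exact Or.inr le_rfl
    · rw [if_neg h]; exact Or.inl ⟨rfl, List.prefix_append _ _⟩

lemma lt_cv (x : L) (i : Fin 4) : x < cv x i :=
  lt_of_le_of_ne (le_cv x i) fun h => by have := rk_cv x i; rw [← h] at this; omega

lemma exists_cv {x y : L} (h : x < y) : ∃ i, cv x i ≤ y := by
  obtain ⟨q, _ | u⟩ := x
  · have h1 : q ≤ y.q := q_le h.le
    by_cases e : q = y.q
    · obtain ⟨r, _ | w⟩ := y
      · exact absurd (by rw [show q = r from e]) h.ne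
      · exact ⟨1, Or.inl ⟨e, List.nil_prefix⟩⟩
    · rcases cov_le h1 e with k | ⟨c, k⟩
      · exact ⟨0, (pure_le _ _).2 k⟩
      · cases c
        · exact ⟨2, (pure_le _ _).2 k⟩
        · exact ⟨3, (pure_le _ _).2 k⟩
  · rcases h.le with ⟨h1, h2⟩ | k
    · obtain ⟨r, _ | w⟩ := y
      · exact h2.elim
      · obtain ⟨v, rfl⟩ : u <+: w := h2
        cases h1
        rcases v with _ | ⟨t, v⟩
        · simp at h
        · have hp : ∀ s : Fin 3, s = t → u ++ [s] <+: u ++ t :: v := by
            rintro s rfl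
            exact ⟨v, by simp⟩
          fin_cases t
          · exact ⟨0, Or.inl ⟨rfl, hp _ rfl⟩⟩
          · exact ⟨1, Or.inl ⟨rfl, hp _ rfl⟩⟩
          · exact ⟨2, Or.inl ⟨rfl, hp _ rfl⟩⟩
    · exact ⟨3, (pure_le _ _).2 k⟩

lemma covBy_iff {x y : L} : x ⋖ y ↔ ∃ i, y = cv x i := by
  constructor
  · intro h
    obtain ⟨i, hi⟩ := exists_cv h.lt
    exact ⟨i, ((h.eq_or_eq (le_cv x i) hi).resolve_left (lt_cv x i).ne').symm⟩
  · rintro ⟨i, rfl⟩
    refine ⟨lt_cv x i, fun z h1 h2 => ?_⟩
    have := rk_lt h1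
    have := rk_lt h2
    have := rk_cv x i
    omega

lemma cv_le_Dl (x : L) (i : Fin 4) : cv x i ≤ Dl x := by
  obtain ⟨q, _ | u⟩ := x
  · simp only [cv]
    split_ifs
    · exact (pure_le _ _).2 (up_le_lift _)
    · exact Or.inr (back_init q).le
    · exact (pure_le _ _).2 (dn_le_lift _ _)
  · simp only [cv]
    by_cases h : i = 3
    · rw [if_pos h]; exact (pure_le _ _).2 (back_le _)
    · rw [if_neg h]
      refine Or.inr ?_
      simp only [bk, st, List.foldl_append, List.foldl_cons, List.foldl_nil, back_step]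
      exact le_rfl

lemma Dl_le {x z : L} (h : ∀ i, cv x i ≤ z) : Dl x ≤ z := by
  obtain ⟨q, _ | u⟩ := x
  · exact (pure_le _ _).2 (join_up_dn (q_le (h 0)) (q_le (h 2)))
  · have h3 : back (st q u) ≤ z.q := q_le (h 3)
    rcases h 0 with k | k
    · have e : q = z.q := k.1
      rw [← e] at h3
      exact absurd h3 (not_bk_le q u)
    · refine (pure_le _ _).2 ?_
      have : bk ⟨q, some (u ++ [0])⟩ ≤ z.q := k
      simp only [bk, st, List.foldl_append, List.foldl_cons, List.foldl_nil, back_step] at this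
      exact this

lemma finite_level (n : ℕ) (x : L) : {y | x ≤ y ∧ rk y = rk x + n}.Finite := by
  induction n generalizing x with
  | zero => exact (Set.finite_singleton x).subset fun y hy => ((rk_mono hy.1).2 (by simpa using hy.2.le)).symm
  | succ n ih =>
    refine (Set.finite_iUnion fun i => ih (cv x i)).subset fun y hy => ?_
    have h2 := hy.2
    obtain ⟨i, hi⟩ := exists_cv (lt_of_le_of_ne hy.1 (by rintro rfl; push_cast at h2; omega))
    exact Set.mem_iUnion.2 ⟨i, hi, by rw [rk_cv, h2]; push_cast; ring⟩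

lemma pre_total {a b c : Option (List (Fin 3))} (h : pre a c) (k : pre b c) : pre a b ∨ pre b a := by
  rcases a with _ | a
  · exact Or.inl trivial
  rcases b with _ | b
  · exact Or.inr trivial
  rcases c with _ | c
  · exact h.elim
  exact List.prefix_or_prefix_of_prefix h k

lemma join_L {e : Q} {x y : L} (hx : e ≤ x.q) (hy : e ≤ y.q) :
    ∃ m : L, ∀ z, m ≤ z ↔ x ≤ z ∧ y ≤ z := by
  by_cases h1 : x ≤ y
  · exact ⟨y, fun z => ⟨fun h => ⟨h1.trans h, h⟩, fun h => h.2⟩⟩
  by_cases h2 : y ≤ x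
  · exact ⟨x, fun z => ⟨fun h => ⟨h, h2.trans h⟩, fun h => h.1⟩⟩
  obtain ⟨m, hm⟩ := join_Q (hx.trans (le_bk x)) (hy.trans (le_bk y))
  refine ⟨⟨m, none⟩, fun z => ?_⟩
  rw [pure_le, hm]
  refine ⟨fun h => ⟨Or.inr h.1, Or.inr h.2⟩, fun ⟨h, k⟩ => ?_⟩
  rcases h with h | h <;> rcases k with k | k
  · rcases pre_total h.2 k.2 with j | j
    · exact absurd (Or.inl ⟨h.1.trans k.1.symm, j⟩) h1
    · exact absurd (Or.inl ⟨k.1.trans h.1.symm, j⟩) h2
  · exact absurd (Or.inr (h.1 ▸ k)) h2
  · exact absurd (Or.inr (k.1 ▸ h)) h1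
  · exact ⟨h, k⟩

end Pool.Agent.H.MP_8cec24_co
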