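import Pool.Agent.H.MP_8cec24_co.B

set_option autoImplicit false

namespace Pool.Agent.H.MP_8cec24_co

def N : St → List (Fin 3) → L
  | s, [] => ⟨s.1, none⟩
  | s, t :: w => if t = 1 then ⟨s.1, some w⟩ else N (step s t) w

lemma le_N (w : List (Fin 3)) (s : St) : s.1 ≤ (N s w).q := by
  induction w generalizing s with
  | nil => exact le_rfl
  | cons t w ih =>
    simp only [N]
    split_ifs
    · exact le_rfl
    · exact (le_step s t).trans (ih _)

lemma rk_N (w : List (Fin 3)) (s : St) : rk (N s w) = ht s.1 + w.length := by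
  induction w generalizing s with
  | nil => simp [N, rk, len]
  | cons t w ih =>
    simp only [N]
    split_ifs
    · simp [rk, len]
    · rw [ih, ht_step]; simp; ring

lemma not_back_le (s : St) : ¬ back s ≤ s.1 := fun h => by
  have := ht_mono h
  rw [ht_back] at this
  omega

lemma not_step_le (s : St) (t : Fin 3) : ¬ (step s t).1 ≤ s.1 := fun h => by
  have := ht_mono h
  rw [ht_step] at this
  omega

lemma nb (w : List (Fin 3)) (s : St) : ¬ back s ≤ (N s w).q := by
  induction w generalizing s with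
  | nil => exact not_back_le s
  | cons t w ih =>
    simp only [N]
    split_ifs with h
    · exact not_back_le s
    · exact fun k => ih (step s t) ((back_step s t).symm ▸ join_step_back h (le_N w _) k)

lemma step_one (s : St) : step s 1 = init s.1 := by simp [step]

lemma N_le (w : List (Fin 3)) (s : St) (z : L) (hz : back s ≤ z.q) :
    N s w ≤ z ↔ back (w.foldl step s) ≤ z.q := by
  induction w generalizing s with
  | nil => exact ⟨fun _ => hz, fun _ => (pure_le _ _).2 ((le_back s).trans hz)⟩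
  | cons t w ih =>
    simp only [N, List.foldl_cons]
    split_ifs with h
    · subst h
      rw [step_one]
      refine ⟨fun k => k.resolve_left fun j => not_back_le s ?_, fun k => Or.inr k⟩
      have e : s.1 = z.q := j.1
      rw [e]; exact hz
    · constructor
      · intro k
        exact (ih _ ((back_step s t).symm ▸ join_step_back h ((le_N w _).trans (q_le k)) hz)).1 k
      · intro k
        exact (ih _ ((back_foldl w _).trans k)).2 k

lemma N_le_N (w w' : List (Fin 3)) (s : St) : N s w ≤ N s w' ↔ w <+: w' := by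
  induction w generalizing s w' with
  | nil => exact ⟨fun _ => List.nil_prefix, fun _ => (pure_le _ _).2 (le_N _ _)⟩
  | cons t v ih =>
    rcases w' with _ | ⟨t', v'⟩
    · refine ⟨fun h => ?_, fun h => by simp at h⟩
      have := (rk_mono h).1
      rw [rk_N, rk_N] at this
      simp at this
      omega
    rw [List.cons_prefix_cons]
    simp only [N]
    by_cases h : t = 1 <;> by_cases h' : t' = 1
    · rw [if_pos h, if_pos h', L.le_def]
      simp [h, h', not_bk_le, pre]
    · rw [if_pos h, if_neg h']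
      refine ⟨fun k => ?_, fun k => absurd (k.1.symm.trans h) h'⟩
      exfalso
      rcases k with k | k
      · have e : s.1 = (N (step s t') v').q := k.1
        exact not_step_le s t' (e ▸ le_N v' _)
      · refine nb v' (step s t') (le_trans ?_ k)
        rw [back_step, ← back_init]
        exact back_foldl _ _
    · rw [if_neg h, if_pos h']
      refine ⟨fun k => ?_, fun k => absurd (k.1.trans h') h⟩
      exact absurd ((le_N v _).trans (q_le k)) (not_step_le s t)
    · rw [if_neg h, if_neg h']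
      by_cases e : t = t'
      · subst e
        simp [ih]
      · refine ⟨fun k => ?_, fun k => absurd k.1 e⟩
        exfalso
        have k1 := (le_N v _).trans (q_le k)
        have k2 := le_N v' (step s t')
        apply nb v' (step s t')
        rw [back_step]
        have : (t = 0 ∧ t' = 2) ∨ (t = 2 ∧ t' = 0) := by omega
        rcases this with ⟨rfl, rfl⟩ | ⟨rfl, rfl⟩
        · exact join_step_step k1 k2
        · exact join_step_step k2 k1

lemma N_surj (n : ℕ) (s : St) (z : L) (h : s.1 ≤ z.q) (hb : ¬ back s ≤ z.q)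
    (hn : ht z.q = ht s.1 + n) : ∃ w, N s w = z := by
  induction n generalizing s with
  | zero =>
    have e : s.1 = z.q := eq_of_ht h (by simp at hn; omega)
    obtain ⟨r, _ | w⟩ := z
    · exact ⟨[], by simp only [N]; rw [e]⟩
    · exact ⟨1 :: w, by simp only [N, if_true]; rw [e]⟩
  | succ n ih =>
    obtain ⟨t, h1, h2⟩ := exists_step h (fun e => by rw [e] at hn; push_cast at hn; omega) hb
    obtain ⟨w, hw⟩ := ih (step s t) h2 (fun k => hb ((back_le s).trans ((back_step s t) ▸ k)))
      (by rw [ht_step, hn]; push_cast; ring)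
    exact ⟨t :: w, by simp only [N, if_neg h1]; exact hw⟩

open Classical in
noncomputable def G (q : Q) (u : List (Fin 3)) (y : L) : L :=
  if back (st q u) ≤ y.q then y else N (st q u) ((y.o.getD []).drop u.length)

lemma above {q : Q} {u : List (Fin 3)} {y : L} (h : (⟨q, some u⟩ : L) ≤ y) :
    back (st q u) ≤ y.q ∨ ∃ w, y = ⟨q, some (u ++ w)⟩ := by
  rcases h with ⟨h1, h2⟩ | h
  · obtain ⟨r, _ | w⟩ := y
    · exact h2.elim
    · obtain ⟨v, rfl⟩ : u <+: w := h2
      cases h1
      exact Or.inr ⟨v, rfl⟩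
  · exact Or.inl h

lemma G_pos {q : Q} {u : List (Fin 3)} {y : L} (h : back (st q u) ≤ y.q) : G q u y = y := if_pos h

lemma G_neg (q : Q) (u w : List (Fin 3)) : G q u ⟨q, some (u ++ w)⟩ = N (st q u) w := by
  refine (if_neg (not_bk_le q u)).trans ?_
  simp

lemma isoB (q : Q) (u : List (Fin 3)) :
    Nonempty (Set.Ici (⟨q, some u⟩ : L) ≃o Set.Ici (⟨(st q u).1, none⟩ : L)) := by
  have hm : ∀ y : Set.Ici (⟨q, some u⟩ : L), G q u y ∈ Set.Ici (⟨(st q u).1, none⟩ : L) := by
    rintro ⟨y, hy⟩
    rcases above hy with h | ⟨w, rfl⟩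
    · rw [G_pos h]; exact (pure_le _ _).2 ((le_back _).trans h)
    · rw [G_neg]; exact (pure_le _ _).2 (le_N _ _)
  refine ⟨OrderIso.ofSurjective (OrderEmbedding.ofMapLEIff (fun y => ⟨G q u y, hm y⟩) ?_) ?_⟩
  · rintro ⟨y, hy⟩ ⟨z, hz⟩
    show G q u y ≤ G q u z ↔ y ≤ z
    rcases above hy with h | ⟨w, rfl⟩ <;> rcases above hz with k | ⟨v, rfl⟩
    · rw [G_pos h, G_pos k]
    · rw [G_pos h, G_neg]
      exact ⟨fun j => absurd (h.trans (q_le j)) (nb _ _),
        fun j => absurd (h.trans (q_le j)) (not_bk_le q u)⟩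
    · rw [G_pos k, G_neg, N_le _ _ _ k, L.le_def]
      simp only [bk, st, List.foldl_append]
      refine ⟨Or.inr, fun j => j.resolve_left fun i => not_bk_le q u ?_⟩
      have e : q = z.q := i.1
      rw [← e] at k
      exact k
    · rw [G_neg, G_neg, N_le_N, L.le_def]
      simp [not_bk_le, pre]
  · rintro ⟨z, hz⟩
    have hz' : (st q u).1 ≤ z.q := q_le hz
    by_cases h : back (st q u) ≤ z.q
    · exact ⟨⟨z, Or.inr h⟩, Subtype.ext (G_pos h)⟩
    · have := ht_mono hz'
      obtain ⟨w, hw⟩ := N_surj (ht z.q - ht (st q u).1).toNat _ z hz' h (by omega)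
      exact ⟨⟨⟨q, some (u ++ w)⟩, Or.inl ⟨rfl, List.prefix_append _ _⟩⟩,
        Subtype.ext ((G_neg q u w).trans hw)⟩

/-! ### The automorphisms of `Q` and of `L`. -/

def tau (o : Q) (r : Q) : Q := ⟨r.a - o.a, r.b - o.b, fun j =>
  if j < r.a - o.a - (r.b - o.b) then false else xor (r.d (j + (o.a - o.b))) (o.d (j + (o.a - o.b))),
  fun _ h => if_pos h⟩

def gam (o r : Q) : Bool := o.d (r.a - r.b - 1)

lemma tau_d (o r : Q) {j : ℤ} (h : r.a - r.b ≤ j + (o.a - o.b)) :
    (tau o r).d j = xor (r.d (j + (o.a - o.b))) (o.d (j + (o.a - o.b))) := if_neg (by omega)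

lemma tau_le (o x y : Q) : tau o x ≤ tau o y ↔ x ≤ y := by
  constructor
  · rintro ⟨h1, h2, h3⟩
    have h1' : x.a - o.a ≤ y.a - o.a := h1
    have h2' : x.b - o.b ≤ y.b - o.b := h2
    refine ⟨by omega, by omega, fun j hj => ?_⟩
    have := h3 (j - (o.a - o.b)) (by show y.a - o.a - (x.b - o.b) ≤ _; omega)
    rw [tau_d _ _ (by omega), tau_d _ _ (by omega), sub_add_cancel] at this
    simpa using this
  · rintro ⟨h1, h2, h3⟩
    refine ⟨show x.a - o.a ≤ y.a - o.a by omega, show x.b - o.b ≤ y.b - o.b by omega, fun j hj => ?_⟩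
    have hj' : y.a - o.a - (x.b - o.b) ≤ j := hj
    rw [tau_d _ _ (by omega), tau_d _ _ (by omega), h3 _ (by omega)]

lemma tau_inj (o : Q) {x y : Q} : tau o x = tau o y ↔ x = y :=
  ⟨fun h => le_antisymm ((tau_le o _ _).1 h.le) ((tau_le o _ _).1 h.ge), fun h => h ▸ rfl⟩

lemma tau_surj (o z : Q) : ∃ r, tau o r = z := by
  refine ⟨⟨z.a + o.a, z.b + o.b, fun j => if j < z.a + o.a - (z.b + o.b) then false else
    xor (z.d (j - (o.a - o.b))) (o.d j), fun _ h => if_pos h⟩, Q.ext (by simp [tau]) (by simp [tau])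
    (funext fun j => ?_)⟩
  by_cases h : j < z.a - z.b
  · rw [z.hd j h]
    exact Q.hd _ _ (by simp only [tau]; omega)
  · rw [tau_d _ _ (by simp only; omega)]
    simp only
    rw [if_neg (by omega)]
    simp

lemma tau_up (o r : Q) : tau o (up r) = up (tau o r) := by
  refine Q.ext (by simp [tau, up]; ring) rfl (funext fun j => ?_)
  by_cases h : j < r.a + 1 - o.a - (r.b - o.b)
  · rw [Q.hd _ _ (by simp only [tau, up]; omega), Q.hd _ _ (by simp only [tau, up]; omega)]
  · rw [tau_d _ _ (by simp only [up]; omega)]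
    show _ = if j < r.a - o.a + 1 - (r.b - o.b) then false else (tau o r).d j
    rw [if_neg (by omega), tau_d _ _ (by omega)]
    simp only [up]
    rw [if_neg (by omega)]

lemma tau_dn (o r : Q) (c : Bool) : tau o (dn c r) = dn (xor c (gam o r)) (tau o r) := by
  refine Q.ext rfl (by simp [tau, dn]; ring) (funext fun j => ?_)
  by_cases h : j < r.a - o.a - (r.b + 1 - o.b)
  · rw [Q.hd _ _ (by simp only [tau, dn]; omega), Q.hd _ _ (by simp only [tau, dn]; omega)]
  · rw [tau_d _ _ (by simp only [dn]; omega)]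
    show _ = if j = r.a - o.a - (r.b - o.b) - 1 then xor c (gam o r) else (tau o r).d j
    simp only [dn]
    by_cases k : j = r.a - o.a - (r.b - o.b) - 1
    · rw [if_pos k, if_pos (by omega), gam]
      congr 2
      omega
    · rw [if_neg k, if_neg (by omega), tau_d _ _ (by omega)]

lemma dig_tau (o r : Q) : dig (tau o r) = xor (dig r) (gam o (up r)) := by
  unfold dig
  rw [tau_d _ _ (by simp only [tau]; omega)]
  simp only [tau, gam, up]
  congr 2 <;> omega

def T (o : Q) (s : St) : St := (tau o s.1, s.2.map fun c => xor c (gam o s.1))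

lemma T_init (o r : Q) : T o (init r) = init (tau o r) := by
  simp [T, init, tau_up, dig_tau]

lemma back_T (o : Q) (s : St) : back (T o s) = tau o (back s) := by
  obtain ⟨r, _ | c⟩ := s
  · exact (tau_up o r).symm
  · exact (tau_dn o r c).symm

def fl (o : Q) (s : St) (t : Fin 3) : Fin 3 :=
  if s.2 = none ∧ gam o s.1 = true then 2 - t else t

lemma fl_fl (o : Q) (s : St) (t : Fin 3) : fl o s (fl o s t) = t := by
  unfold fl
  split_ifs <;> simp

lemma step_T (o : Q) (s : St) (t : Fin 3) : step (T o s) (fl o s t) = T o (step s t) := by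
  obtain ⟨r, _ | c⟩ := s
  · cases h : gam o r <;> fin_cases t <;> simp [step, fl, h, T_init] <;> simp [T, tau_dn, h]
  · fin_cases t <;> simp [step, fl, T_init] <;> simp [T, tau_dn]

def fw (o : Q) : St → List (Fin 3) → List (Fin 3)
  | _, [] => []
  | s, t :: w => fl o s t :: fw o (step s t) w

lemma foldl_T (o : Q) (w : List (Fin 3)) (s : St) :
    (fw o s w).foldl step (T o s) = T o (w.foldl step s) := by
  induction w generalizing s with
  | nil => rfl
  | cons t w ih => simp only [fw, List.foldl_cons, step_T, ih]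

lemma fw_prefix (o : Q) (u w : List (Fin 3)) (s : St) : fw o s u <+: fw o s w ↔ u <+: w := by
  induction u generalizing s w with
  | nil => simp [fw]
  | cons t u ih =>
    rcases w with _ | ⟨t', w⟩
    · simp [fw]
    simp only [fw, List.cons_prefix_cons]
    constructor
    · rintro ⟨h1, h2⟩
      have e : t = t' := by rw [← fl_fl o s t, h1, fl_fl]
      subst e
      exact ⟨rfl, (ih _ _).1 h2⟩
    · rintro ⟨rfl, h⟩
      exact ⟨rfl, (ih _ _).2 h⟩

lemma fw_surj (o : Q) (v : List (Fin 3)) (s : St) : ∃ w, fw o s w = v := by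
  induction v generalizing s with
  | nil => exact ⟨[], rfl⟩
  | cons t v ih =>
    obtain ⟨w, hw⟩ := ih (step s (fl o s t))
    exact ⟨fl o s t :: w, by simp only [fw, fl_fl, hw]⟩

def F (o : Q) (x : L) : L := ⟨tau o x.q, x.o.map (fw o (init x.q))⟩

lemma bk_F (o : Q) (x : L) : bk (F o x) = tau o (bk x) := by
  obtain ⟨r, _ | w⟩ := x
  · rfl
  · simp only [F, bk, st, Option.map_some]
    rw [← T_init, foldl_T, back_T]

lemma F_le (o : Q) (x y : L) : F o x ≤ F o y ↔ x ≤ y := by
  rw [L.le_def, L.le_def, bk_F]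
  refine or_congr ?_ (tau_le o _ _)
  obtain ⟨r, a⟩ := x
  obtain ⟨r', b⟩ := y
  simp only [F, tau_inj]
  refine and_congr_right ?_
  rintro rfl
  rcases a with _ | a <;> rcases b with _ | b <;> simp [pre, fw_prefix]

lemma F_surj (o : Q) (z : L) : ∃ x, F o x = z := by
  obtain ⟨r, a⟩ := z
  obtain ⟨q, rfl⟩ := tau_surj o r
  rcases a with _ | v
  · exact ⟨⟨q, none⟩, rfl⟩
  · obtain ⟨w, rfl⟩ := fw_surj o v (init q)
    exact ⟨⟨q, some w⟩, rfl⟩

def e0 : Q := ⟨0, 0, fun _ => false, fun _ _ => rfl⟩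

def E : L := ⟨e0, none⟩

lemma tau_self (o : Q) : tau o o = e0 :=
  Q.ext (by simp [tau, e0]) (by simp [tau, e0]) (funext fun j => by simp [tau, e0])

lemma isoA (o : Q) : Nonempty (Set.Ici (⟨o, none⟩ : L) ≃o Set.Ici E) := by
  have hE : F o ⟨o, none⟩ = E := by simp [F, E, tau_self]
  refine ⟨OrderIso.ofSurjective (OrderEmbedding.ofMapLEIff
    (fun y => ⟨F o y, hE ▸ (F_le o _ _).2 y.2⟩) fun y z => F_le o _ _) ?_⟩
  rintro ⟨z, hz⟩
  obtain ⟨x, rfl⟩ := F_surj o z
  exact ⟨⟨x, (F_le o _ _).1 (hE ▸ hz)⟩, rfl⟩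

lemma iso (x : L) : Nonempty (Set.Ici x ≃o Set.Ici E) := by
  obtain ⟨q, _ | u⟩ := x
  · exact isoA q
  · obtain ⟨f⟩ := isoB q u
    obtain ⟨g⟩ := isoA (st q u).1
    exact ⟨f.trans g⟩

end Pool.Agent.H.MP_8cec24_co
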