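import Pool.Agent.H.MP_8cec24_co.C

set_option autoImplicit false

namespace Pool.Agent.H.MP_8cec24_co

lemma nomul {P : Type} [PartialOrder P] [OrderBot P] (M : Monoid P)
    (hc : ∀ a b c : P, a * b = a * c → b = c) (hle : ∀ a b : P, a ≤ b ↔ ∃ c, a * c = b)
    (D : P → P) (hD : ∀ x z, D x ≤ z ↔ ∀ y, x ⋖ y → y ≤ z) (c d p q : P)
    (hat : ∀ s, ⊥ ⋖ s → s = c ∨ s = d ∨ s = p ∨ s = q)
    (hcov : ∀ s, ⊥ ⋖ s → s ⋖ D ⊥) (ac : ⊥ ⋖ c) (ad : ⊥ ⋖ d) (ap : ⊥ ⋖ p) (aq : ⊥ ⋖ q)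
    (hcd : c ≠ d) (e1 : D c = D d) (n1 : D p ≠ D q) (n2 : D p ≠ D c) (n3 : D q ≠ D c)
    (hp : ∃ y, p ⋖ y ∧ y ≠ D ⊥ ∧ D y = D (D ⊥)) (hq : ∃ y, q ⋖ y ∧ y ≠ D ⊥ ∧ D y = D (D ⊥))
    (hc' : ∀ y, c ⋖ y → D y = D (D ⊥) → y = D ⊥) (hd' : ∀ y, d ⋖ y → D y = D (D ⊥) → y = D ⊥) :
    False := by
  have h1 : (1 : P) = ⊥ := le_bot_iff.1 ((hle _ _).2 ⟨⊥, one_mul _⟩)
  have hmul : ∀ x a b : P, x * a ≤ x * b ↔ a ≤ b := fun x a b => by
    rw [hle, hle]
    constructor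
    · rintro ⟨k, hk⟩
      exact ⟨k, hc x _ _ (by rw [← mul_assoc, hk])⟩
    · rintro ⟨k, rfl⟩
      exact ⟨k, mul_assoc _ _ _⟩
  have hlt : ∀ x a b : P, x * a < x * b ↔ a < b := fun x a b =>
    lt_iff_lt_of_le_iff_le' (hmul x b a) (hmul x a b)
  have hx1 : ∀ x : P, x * ⊥ = x := fun x => by rw [← h1, mul_one]
  have cov1 : ∀ x s : P, ⊥ ⋖ s → x ⋖ x * s := fun x s hs => by
    refine ⟨by simpa [hx1] using (hlt x ⊥ s).2 hs.lt, fun z j1 j2 => ?_⟩
    obtain ⟨k, rfl⟩ := (hle _ _).1 j1.le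
    exact hs.2 ((hlt x ⊥ k).1 (by rwa [hx1])) ((hlt x k s).1 j2)
  have cov2 : ∀ x y : P, x ⋖ y → ∃ s, ⊥ ⋖ s ∧ x * s = y := fun x y h => by
    obtain ⟨s, rfl⟩ := (hle _ _).1 h.le
    refine ⟨s, ⟨(hlt x ⊥ s).1 (by rw [hx1]; exact h.lt), fun z j1 j2 => ?_⟩, rfl⟩
    exact h.2 (by simpa [hx1] using (hlt x ⊥ z).2 j1) ((hlt x z s).2 j2)
  have hDm : ∀ x : P, D x = x * D ⊥ := fun x => by
    apply le_antisymm
    · rw [hD]
      intro y hy
      obtain ⟨s, hs, rfl⟩ := cov2 x y hy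
      exact (hmul _ _ _).2 ((hD _ _).1 le_rfl s hs)
    · have : x ≤ D x := (cov1 x c ac).le.trans ((hD _ _).1 le_rfl _ (cov1 x c ac))
      obtain ⟨k, hk⟩ := (hle _ _).1 this
      rw [← hk, hmul, hD]
      intro s hs
      rw [← hmul x, hk]
      exact (hD _ _).1 le_rfl _ (cov1 x s hs)
  have hDD : ∀ x a : P, D (x * a) = x * D a := fun x a => by rw [hDm, hDm a, mul_assoc]
  choose! g hg hg' using fun s hs => cov2 s (D ⊥) (hcov s hs)
  have hf : ∀ s, ⊥ ⋖ s → D s = D ⊥ * g (g s) := fun s hs => by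
    rw [hDm, ← hg' _ (hg s hs), ← mul_assoc, hg' s hs, hg' _ (hg s hs)]
  have part : ∀ s, ⊥ ⋖ s → (∃ y, s ⋖ y ∧ y ≠ D ⊥ ∧ D y = D (D ⊥)) → g s = c ∨ g s = d := by
    rintro s hs ⟨y, j1, j2, j3⟩
    obtain ⟨t, ht, rfl⟩ := cov2 s y j1
    have k1 : t ≠ g s := fun e => j2 (by rw [e, hg' s hs])
    have k2 : D t = D (g s) := hc s _ _ (by rw [← hDD, ← hDD, hg' s hs, j3])
    rcases hat _ (hg s hs) with k | k | k | k
    · exact Or.inl k
    · exact Or.inr k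
    · exfalso
      rw [k] at k1 k2
      rcases hat _ ht with rfl | rfl | rfl | rfl
      · exact n2 k2.symm
      · exact n2 (k2.symm.trans e1.symm)
      · exact k1 rfl
      · exact n1 k2.symm
    · exfalso
      rw [k] at k1 k2
      rcases hat _ ht with rfl | rfl | rfl | rfl
      · exact n3 k2.symm
      · exact n3 (k2.symm.trans e1.symm)
      · exact n1 k2
      · exact k1 rfl
  have nopart : ∀ s, ⊥ ⋖ s → (∀ y, s ⋖ y → D y = D (D ⊥) → y = D ⊥) → g s = p ∨ g s = q := by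
    intro s hs h
    rcases hat _ (hg s hs) with k | k | k | k
    · have := h _ (cov1 s d ad) (by rw [← hg' s hs, hDD, hDD, k, e1])
      rw [← hg' s hs, k] at this
      exact absurd (hc _ _ _ this).symm hcd
    · have := h _ (cov1 s c ac) (by rw [← hg' s hs, hDD, hDD, k, e1])
      rw [← hg' s hs, k] at this
      exact absurd (hc _ _ _ this) hcd
    · exact Or.inl k
    · exact Or.inr k
  have f1 : g (g c) = g (g d) := hc (D ⊥) _ _ (by rw [← hf c ac, ← hf d ad, e1])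
  have f2 : g (g p) ≠ g (g q) := fun e => n1 (by rw [hf p ap, hf q aq, e])
  have f3 : g c ≠ g d := fun e => by
    apply f2
    rcases part p ap hp with a | a <;> rcases part q aq hq with b | b <;> simp only [a, b, e]
  have f4 : g p ≠ g q := fun e => f2 (by rw [e])
  rcases nopart c ac hc' with j | j <;> rcases nopart d ad hd' with k | k
  · exact f3 (j.trans k.symm)
  · rw [j, k] at f1; exact f4 f1
  · rw [j, k] at f1; exact f4 f1.symm
  · exact f3 (j.trans k.symm)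

abbrev P : Type := Set.Ici E

lemma P_cov {x y : P} : x ⋖ y ↔ ∃ i, y.1 = cv x.1 i := by
  rw [← covBy_iff]
  exact (Set.OrdConnected.apply_covBy_apply_iff (OrderEmbedding.subtype fun x => x ∈ Set.Ici E)
    (by convert Set.ordConnected_Ici (a := E) using 1; exact Subtype.range_coe)).symm

def cvP (x : P) (i : Fin 4) : P := ⟨cv x.1 i, le_trans x.2 (le_cv _ _)⟩

def DP (x : P) : P := ⟨Dl x.1, le_trans (cvP x 0).2 (cv_le_Dl _ _)⟩

lemma DP_le (x z : P) : DP x ≤ z ↔ ∀ y, x ⋖ y → y ≤ z := by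
  constructor
  · intro h y hy
    obtain ⟨i, hi⟩ := P_cov.1 hy
    show y.1 ≤ z.1
    rw [hi]
    exact (cv_le_Dl _ _).trans h
  · exact fun h => Dl_le fun i => h (cvP x i) (P_cov.2 ⟨i, rfl⟩)

lemma rk_E : rk E = 0 := by simp [rk, E, e0, ht, len]

def rho (x : P) : ℕ := (rk x.1).toNat

lemma rho_eq (x : P) : (rho x : ℤ) = rk x.1 := by
  have := (rk_mono (show lle E x.1 from x.2)).1
  rw [rk_E] at this
  simp [rho, this]

lemma rho_strict : StrictMono rho := fun x y h => by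
  have := rk_lt (show x.1 < y.1 from h)
  rw [← rho_eq, ← rho_eq] at this
  exact_mod_cast this

lemma rho_cov {x y : P} (h : x ⋖ y) : rho y = rho x + 1 := by
  obtain ⟨i, hi⟩ := P_cov.1 h
  have := rk_cv x.1 i
  rw [← hi, ← rho_eq, ← rho_eq] at this
  exact_mod_cast this

lemma rho_fin (n : ℕ) : {x | rho x = n}.Finite := by
  refine ((finite_level n E).preimage Subtype.val_injective.injOn).subset fun x hx => ⟨x.2, ?_⟩
  rw [rk_E, ← rho_eq, zero_add]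
  exact_mod_cast hx

lemma P_lub (x y : P) : ∃ m, IsLUB {x, y} m := by
  obtain ⟨m, hm⟩ := join_L (e := e0) (q_le x.2) (q_le y.2)
  have h := (hm m).1 le_rfl
  refine ⟨⟨m, le_trans x.2 h.1⟩, ?_, fun z hz => (hm z.1).2 ⟨hz (by simp), hz (by simp)⟩⟩
  rintro z (rfl | rfl)
  · exact h.1
  · exact h.2

instance : OrderBot P where
  bot := ⟨E, le_refl E⟩
  bot_le x := x.2

lemma P_glb (x y : P) : ∃ m, IsGLB {x, y} m := by
  choose sup hsup using P_lub
  let _ : SemilatticeSup P := SemilatticeSup.ofIsLUB sup hsup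
  have hf : {z : P | z ≤ x ∧ z ≤ y}.Finite :=
    ((Set.finite_Iic (rho x)).biUnion fun n _ => rho_fin n).subset fun z hz =>
      Set.mem_biUnion (rho_strict.monotone hz.1) rfl
  refine ⟨hf.toFinset.sup id, ?_, fun z hz => Finset.le_sup (f := id)
    (hf.mem_toFinset.2 ⟨hz (by simp), hz (by simp)⟩)⟩
  rintro z (rfl | rfl)
  · exact Finset.sup_le fun w hw => (hf.mem_toFinset.1 hw).1
  · exact Finset.sup_le fun w hw => (hf.mem_toFinset.1 hw).2

noncomputable abbrev lat : Lattice P :=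
  Lattice.ofIsLUBofIsGLB (fun x y => (P_lub x y).choose) (fun x y => (P_glb x y).choose)
    (fun x y => (P_lub x y).choose_spec) (fun x y => (P_glb x y).choose_spec)

lemma P_upho (a : P) : Nonempty (Set.Ici a ≃o P) := by
  obtain ⟨f⟩ := iso a.1
  refine ⟨OrderIso.trans (OrderIso.ofSurjective (OrderEmbedding.ofMapLEIff
    (fun y : Set.Ici a => (⟨y.1.1, y.2⟩ : Set.Ici a.1)) fun y z => Iff.rfl) ?_) f⟩
  rintro ⟨z, hz⟩
  exact ⟨⟨⟨z, le_trans (show E ≤ a.1 from a.2) (show a.1 ≤ z from hz)⟩, hz⟩, rfl⟩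

lemma dn_ne_up (c : Bool) (q : Q) : dn c q ≠ up q := fun h => by
  have := congrArg Q.a h
  simp [dn, up] at this

lemma lift_inj {q r : Q} (h : lift q = lift r) : q = r := by
  have h1 := congrArg Q.a h
  have h2 := congrArg Q.b h
  have h3 := congrArg Q.d h
  simp only [lift] at h1 h2 h3
  exact Q.ext (by omega) (by omega) h3

lemma dn_ne (q : Q) : dn false q ≠ dn true q := fun h => by
  have := congrFun (congrArg Q.d h) (q.a - q.b - 1)
  simp [dn] at this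

lemma DP_eq {x y : P} : DP x = DP y ↔ sh x.1 = sh y.1 :=
  ⟨fun h => lift_inj (congrArg (fun z : P => z.1.q) h), fun h => Subtype.ext (by simp [DP, Dl, h])⟩

lemma not_mult (M : Monoid P) (hc : ∀ a b c : P, a * b = a * c → b = c) :
    ¬ ∀ a b : P, a ≤ b ↔ ∃ c, a * c = b := by
  intro hle
  have d0 : dn false (up e0) = lift e0 := dn_up e0
  have d1 : dn true (up e0) ≠ lift e0 := d0 ▸ (dn_ne _).symm
  have d2 : up (up e0) ≠ lift e0 := d0 ▸ (dn_ne_up _ _).symm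
  refine nomul M hc hle DP DP_le (cvP ⊥ 0) (cvP ⊥ 1) (cvP ⊥ 2) (cvP ⊥ 3) ?_ ?_
    (P_cov.2 ⟨0, rfl⟩) (P_cov.2 ⟨1, rfl⟩) (P_cov.2 ⟨2, rfl⟩) (P_cov.2 ⟨3, rfl⟩)
    (fun h => by simpa [cvP, cv, E, Bot.bot] using congrArg (fun z : P => z.1.o) h)
    (DP_eq.2 rfl) (fun h => dn_ne e0 (DP_eq.1 h)) (fun h => dn_ne_up _ e0 (DP_eq.1 h))
    (fun h => dn_ne_up _ e0 (DP_eq.1 h)) ?_ ?_ ?_ ?_
  · intro s hs
    obtain ⟨i, hi⟩ := P_cov.1 hs
    have : s = cvP ⊥ i := Subtype.ext hi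
    fin_cases i <;> simp_all
  · intro s hs
    obtain ⟨i, hi⟩ := P_cov.1 hs
    rw [P_cov, hi]
    fin_cases i
    · exact ⟨2, L.ext d0.symm rfl⟩
    · exact ⟨3, L.ext (back_init e0).symm rfl⟩
    · exact ⟨0, L.ext (up_dn _ e0).symm rfl⟩
    · exact ⟨0, L.ext (up_dn _ e0).symm rfl⟩
  · exact ⟨cvP (cvP ⊥ 2) 1, P_cov.2 ⟨1, rfl⟩,
      fun h => by simpa [cvP, cv, E, Bot.bot, DP, Dl] using congrArg (fun z : P => z.1.o) h,
      DP_eq.2 (up_dn _ e0)⟩
  · exact ⟨cvP (cvP ⊥ 3) 1, P_cov.2 ⟨1, rfl⟩,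
      fun h => by simpa [cvP, cv, E, Bot.bot, DP, Dl] using congrArg (fun z : P => z.1.o) h,
      DP_eq.2 (up_dn _ e0)⟩
  · intro y hy h
    obtain ⟨i, hi⟩ := P_cov.1 hy
    have h' := DP_eq.1 h
    rw [hi] at h'
    fin_cases i
    · exact absurd h' d2
    · exact absurd h' d2
    · exact Subtype.ext (hi.trans (L.ext d0 rfl))
    · exact absurd h' d1
  · intro y hy h
    obtain ⟨i, hi⟩ := P_cov.1 hy
    have h' := DP_eq.1 h
    rw [hi] at h'
    fin_cases i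
    · exact absurd h' d2
    · exact absurd h' d2
    · exact absurd h' d1
    · exact Subtype.ext (hi.trans (L.ext (back_init e0) rfl))

end Pool.Agent.H.MP_8cec24_co
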